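import Pool.Agent.H61.CA.C10

/-!
CORE C10b: `core'` from `core_L` with `K := FractionRing k⟦X⟧`, `L := SeparableClosure K`.
-/

open MvPowerSeries

namespace Pool.Agent.H7.CA

open Pool.Agent.H13.CA Pool.Agent.H61.CA

theorem core' {k : Type*} [Field k] [IsAlgClosed k] (p : ℕ) [Fact p.Prime] [CharP k p]
    {s : ℕ} {F : FormalGroup (MvPowerSeries (Fin (s + 1)) k)}
    (hF : IsLT k p (s + 1) F) (hs : ChaiAt k p s)
    (P : Ideal (MvPowerSeries (Fin (s + 1)) k)) (hP : P.IsPrime) (hle : P ≤ Istd k (s + 1) s)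
    (V : Subgroup (Lift k F)) (hV : BigSub V)
    (hst : ∀ a ∈ V, P.map (a.g : MvPowerSeries (Fin (s + 1)) k →+* _) ≤ P) :
    ∃ j, j ≤ s + 1 ∧ P = Istd k (s + 1) j := by
  let K := FractionRing (PowerSeries k)
  let L := SeparableClosure K
  have hinj : Function.Injective (algebraMap (PowerSeries k) L) := by
    rw [IsScalarTower.algebraMap_eq (PowerSeries k) K L]
    exact (algebraMap K L).injective.comp (IsFractionRing.injective (PowerSeries k) K)
  have : IsSepClosed L := IsSepClosure.sep_closed K
  have : IsScalarTower k (PowerSeries k) L := by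
    refine IsScalarTower.of_algebraMap_eq fun x => ?_
    rw [IsScalarTower.algebraMap_apply k K L, IsScalarTower.algebraMap_apply (PowerSeries k) K L,
      ← IsScalarTower.algebraMap_apply k (PowerSeries k) K]
  obtain ⟨D⟩ := exists_slice (L := L) p hF hinj
  obtain ⟨E⟩ := exists_sub (K := K) p hF D V hV
  exact core_L (K := K) p hF hs hinj E P hP hle V hV hst

end Pool.Agent.H7.CA
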